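import Pool.Agent.Helper50.CH.Par

/-!
# Slowly modulated sums: parameters
-/

set_option autoImplicit false

open Finset MeasureTheory Filter Topology

namespace Pool.Agent.Helper50.CH

/-- the large values beat the assumed bound -/
theorem ev_H {δ e : ℝ} (hδ0 : 0 < δ) (hδ : δ < 1 / 2) (he : e < δ) (c D : ℝ) : ∀ᶠ H : ℝ in atTop,
    c * (D + 2 * Real.exp (Real.log (2 * H + 1) ^ (1 / 2 - δ))) ≤ Real.exp (Real.log H ^ (1 / 2 - e)) := by
  have h1 : Tendsto (fun y : ℝ => y ^ (1 / 2 - δ) * (y ^ (δ - e) - 2)) atTop atTop := by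
    apply Tendsto.atTop_mul_atTop₀
    · exact tendsto_rpow_atTop (by linarith)
    · exact tendsto_atTop_add_const_right atTop (-2) (tendsto_rpow_atTop (by linarith))
  have h2 := (Real.tendsto_exp_atTop.comp h1).eventually (eventually_ge_atTop (|c| * (|D| + 2)))
  have hlog := Real.tendsto_log_atTop
  filter_upwards [hlog.eventually h2, hlog.eventually (eventually_ge_atTop (2 : ℝ)), eventually_ge_atTop (3 : ℝ)] with H a1 a2 a3
  set y := Real.log H with hy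
  have hy0 : 0 < y := by linarith
  have b1 : Real.log (2 * H + 1) ≤ 2 * y := by
    have : 2 * H + 1 ≤ H ^ 2 := by nlinarith
    calc Real.log (2 * H + 1) ≤ Real.log (H ^ 2) := Real.log_le_log (by linarith) this
      _ = 2 * y := by rw [Real.log_pow]; push_cast; ring
  have b0 : 0 ≤ Real.log (2 * H + 1) := Real.log_nonneg (by linarith)
  have b2 : Real.log (2 * H + 1) ^ (1 / 2 - δ) ≤ 2 * y ^ (1 / 2 - δ) := by
    calc Real.log (2 * H + 1) ^ (1 / 2 - δ) ≤ (2 * y) ^ (1 / 2 - δ) := Real.rpow_le_rpow b0 b1 (by linarith)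
      _ = 2 ^ (1 / 2 - δ) * y ^ (1 / 2 - δ) := Real.mul_rpow (by norm_num) hy0.le
      _ ≤ 2 * y ^ (1 / 2 - δ) := by
        apply mul_le_mul_of_nonneg_right _ (Real.rpow_nonneg hy0.le _)
        calc (2 : ℝ) ^ (1 / 2 - δ) ≤ 2 ^ (1 : ℝ) := Real.rpow_le_rpow_of_exponent_le (by norm_num) (by linarith)
          _ = 2 := Real.rpow_one 2
  have b3 : y ^ (1 / 2 - δ) * (y ^ (δ - e) - 2) = y ^ (1 / 2 - e) - 2 * y ^ (1 / 2 - δ) := by
    rw [mul_sub, ← Real.rpow_add hy0]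
    rw [show 1 / 2 - δ + (δ - e) = 1 / 2 - e by ring]
    ring
  have a1' : |c| * (|D| + 2) ≤ Real.exp (y ^ (1 / 2 - e) - 2 * y ^ (1 / 2 - δ)) := by
    have := a1
    simp only [Function.comp_apply, b3] at this
    exact this
  set z := Real.log (2 * H + 1) ^ (1 / 2 - δ) with hz
  have hz0 : 0 ≤ z := Real.rpow_nonneg b0 _
  have b4 : 1 ≤ Real.exp z := Real.one_le_exp hz0
  calc c * (D + 2 * Real.exp z) ≤ |c| * (|D| + 2) * Real.exp z := by
        have h5 : |D + 2 * Real.exp z| ≤ (|D| + 2) * Real.exp z := by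
          refine (abs_add_le _ _).trans ?_
          rw [abs_of_pos (show 0 < 2 * Real.exp z by positivity)]
          nlinarith [abs_nonneg D]
        calc c * (D + 2 * Real.exp z) ≤ |c * (D + 2 * Real.exp z)| := le_abs_self _
          _ = |c| * |D + 2 * Real.exp z| := abs_mul _ _
          _ ≤ |c| * ((|D| + 2) * Real.exp z) := mul_le_mul_of_nonneg_left h5 (abs_nonneg c)
          _ = _ := by ring
    _ ≤ Real.exp (y ^ (1 / 2 - e) - 2 * y ^ (1 / 2 - δ)) * Real.exp (2 * y ^ (1 / 2 - δ)) :=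
        mul_le_mul a1' (Real.exp_le_exp.2 b2) (Real.exp_pos _).le (Real.exp_pos _).le
    _ = Real.exp (y ^ (1 / 2 - e)) := by
        rw [← Real.exp_add]
        congr 1
        ring

/-- the speed is small against the length of the window -/
theorem ev_U {K K1 : ℝ} (hK : 0 ≤ K) (hK1 : 0 ≤ K1) : ∀ᶠ U : ℝ in atTop,
    (K1 + 10 * K * Real.log U ^ (1 / 10 : ℝ) + 1) ^ 4 * (1 + Real.log (Real.log U)) ≤ Real.sqrt (Real.log U) := by
  set D := K1 + 10 * K + 1 with hD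
  have hD0 : 0 < D := by positivity
  have h1 : Tendsto (fun ℓ : ℝ => D ^ 4 * (ℓ ^ (-(1 / 10) : ℝ) + Real.log ℓ * ℓ ^ (-(1 / 10) : ℝ))) atTop (𝓝 (D ^ 4 * (0 + 0))) := by
    apply Tendsto.const_mul
    apply Tendsto.add (tendsto_rpow_neg_atTop (by norm_num))
    have h2 := isLittleO_log_rpow_atTop (show (0:ℝ) < 1 / 10 by norm_num)
    have h3 := h2.tendsto_div_nhds_zero
    refine h3.congr' ?_
    filter_upwards [eventually_gt_atTop (0 : ℝ)] with ℓ hℓ
    rw [Real.rpow_neg hℓ.le, div_eq_mul_inv]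
  rw [add_zero, mul_zero] at h1
  have h2 := h1.eventually (ge_mem_nhds (show (0:ℝ) < 1 by norm_num))
  have hlog := Real.tendsto_log_atTop
  filter_upwards [hlog.eventually h2, hlog.eventually (eventually_ge_atTop (1 : ℝ))] with U a1 a2
  set ℓ := Real.log U with hℓ
  have hℓ0 : 0 < ℓ := by linarith
  have b1 : 1 ≤ ℓ ^ (1 / 10 : ℝ) := Real.one_le_rpow a2 (by norm_num)
  have b2 : K1 + 10 * K * ℓ ^ (1 / 10 : ℝ) + 1 ≤ D * ℓ ^ (1 / 10 : ℝ) := by
    rw [hD]; nlinarith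
  have b3 : (ℓ ^ (1 / 10 : ℝ)) ^ 4 = ℓ ^ (2 / 5 : ℝ) := by
    rw [← Real.rpow_natCast, ← Real.rpow_mul hℓ0.le]
    norm_num
  have b4 : 0 ≤ Real.log ℓ := Real.log_nonneg a2
  have b5 : 0 ≤ K1 + 10 * K * ℓ ^ (1 / 10 : ℝ) + 1 := by positivity
  calc (K1 + 10 * K * ℓ ^ (1 / 10 : ℝ) + 1) ^ 4 * (1 + Real.log ℓ) ≤ (D * ℓ ^ (1 / 10 : ℝ)) ^ 4 * (1 + Real.log ℓ) :=
        mul_le_mul_of_nonneg_right (pow_le_pow_left₀ b5 b2 4) (by linarith)
    _ = D ^ 4 * (ℓ ^ (-(1 / 10) : ℝ) + Real.log ℓ * ℓ ^ (-(1 / 10) : ℝ)) * ℓ ^ (1 / 2 : ℝ) := by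
        rw [mul_pow, b3]
        have : ℓ ^ (2 / 5 : ℝ) = ℓ ^ (-(1 / 10) : ℝ) * ℓ ^ (1 / 2 : ℝ) := by
          rw [← Real.rpow_add hℓ0]; norm_num
        rw [this]
        ring
    _ ≤ 1 * ℓ ^ (1 / 2 : ℝ) := mul_le_mul_of_nonneg_right a1 (by positivity)
    _ = Real.sqrt ℓ := by rw [one_mul, Real.sqrt_eq_rpow]

end Pool.Agent.Helper50.CH
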