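import Pool.Agent.Helper50.CH.Grow
import Pool.Agent.Helper50.CH.Ev
import Pool.Agent.Helper71.ST.Defs
import Pool.Agent.Helper56.IT.Defs

/-!
# Slowly modulated sums: the assembly
-/

set_option autoImplicit false

open Finset MeasureTheory Filter Topology
open Pool.Agent.Helper99.MS (GB ff mr ell)
open Pool.Agent.Helper71.ST (Gt)

namespace Pool.Agent.Helper50.CH

/-- the Möbius function -/
abbrev mo : ℕ → ℤ := fun n => ArithmeticFunction.moebius n

/-- the core statement: the bound on a far window gives the bound at the beginning -/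
def StmtCore : Prop := ∀ B : ℝ, ∃ (c : ℝ) (T₀ : ℕ), 0 < c ∧ ∀ T : ℕ, T₀ ≤ T → ∀ t U C₁ : ℝ, |t| ≤ T → Real.exp 1 ≤ U → GB (ff mr) B →
    (T : ℝ) ^ 4 * (1 + Real.log (Real.log U)) ≤ √(Real.log U) → 0 ≤ C₁ →
    (∀ x : ℝ, U ≤ x → x ≤ 4 * U * Real.exp (√(Real.log U)) → ‖Gt mr t (Real.exp x)‖ ≤ C₁ * Real.exp (x / 2)) →
    ∀ n : ℕ, 1 ≤ n → n ≤ T → ‖Gt mr t n‖ ≤ c * (C₁ + 1) * √n

theorem Gt_eq (s x : ℝ) : modulated mo (fun u => s * u) x = Gt mr s x := by
  unfold modulated Gt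
  refine Finset.sum_congr rfl fun n _ => ?_
  rw [mul_comm Complex.I]
  rfl

theorem norm_Sw {s t : ℝ} (hst : |s| = t) (n : ℕ) : ‖Pool.Agent.IT.Sw Pool.Agent.IT.muc t n‖ = ‖modulated mo (fun u => s * u) n‖ := by
  have h1 : ∀ k : ℕ, 1 ≤ k → Pool.Agent.IT.nit t k = Complex.exp (Complex.I * ((-(t * Real.log k) : ℝ) : ℂ)) := by
    intro k hk
    have hk0 : (k : ℂ) ≠ 0 := by exact_mod_cast (by omega : k ≠ 0)
    unfold Pool.Agent.IT.nit
    rw [Complex.cpow_def_of_ne_zero hk0, ← Complex.natCast_log]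
    congr 1
    push_cast
    ring
  rcases abs_cases s with ⟨h, _⟩ | ⟨h, _⟩
  · -- `s = t`: conjugation
    have hs : s = t := by rw [← hst, h]
    have h2 : Pool.Agent.IT.Sw Pool.Agent.IT.muc t n = (starRingEnd ℂ) (modulated mo (fun u => s * u) n) := by
      unfold Pool.Agent.IT.Sw modulated
      rw [map_sum]
      refine Finset.sum_congr rfl fun k hk => ?_
      rw [h1 k (Finset.mem_Icc.1 hk).1, map_mul, ← Complex.exp_conj, map_mul, Complex.conj_I, Complex.conj_ofReal, hs]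
      unfold Pool.Agent.IT.muc
      rw [show (starRingEnd ℂ) ((mo k : ℤ) : ℂ) = ((mo k : ℤ) : ℂ) from map_intCast (starRingEnd ℂ) _]
      congr 2
      push_cast
      ring
    rw [h2, Complex.norm_conj]
  · have hs : s = -t := by rw [← hst, h]; ring
    congr 1
    unfold Pool.Agent.IT.Sw modulated
    refine Finset.sum_congr rfl fun k hk => ?_
    rw [h1 k (Finset.mem_Icc.1 hk).1, hs]
    unfold Pool.Agent.IT.muc
    congr 3
    push_cast
    ring

/-- helper66's theorem lvV -/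
def StmtLv : Prop := ∀ e : ℝ, 0 < e → e ≤ 1 / 4 → ∃ V1 H1 : ℝ, ∀ H : ℝ, H1 ≤ H → ∀ V : ℝ, V1 ≤ V →
    V ≤ Real.exp (Real.log H ^ (1 / 2 - e)) → ∀ U : ℝ,
    ENNReal.ofReal (H * Real.exp (-(Real.log V) ^ (2 + e))) ≤ volume {t : ℝ | U ≤ t ∧ t ≤ U + H ∧
      (∃ n : ℕ, 1 ≤ n ∧ (n : ℝ) ≤ H ^ (1 / 8 : ℝ) ∧ V * Real.sqrt n < ‖Pool.Agent.IT.Sw Pool.Agent.IT.muc t n‖) ∧
      ∃ n : ℕ, 1 ≤ n ∧ (n : ℝ) ≤ H ^ (1 / 8 : ℝ) ∧ V * Real.sqrt n < ‖Pool.Agent.IT.Sw Pool.Agent.IT.lac t n‖}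

theorem asm (hlv : StmtLv) (hcore : StmtCore) {δ : ℝ} (hδ : 0 < δ) (hδ2 : δ < 1 / 2) {θ θ1 θ2 : ℝ → ℝ} {K u0 : ℝ} (hK : 0 ≤ K) (hu0 : Real.exp 1 ≤ u0)
    (hθ : ∀ u : ℝ, 0 < u → HasDerivAt θ (θ1 u) u ∧ HasDerivAt θ1 (θ2 u) u)
    (h2 : ∀ u : ℝ, u0 ≤ u → |θ2 u| ≤ K * (u⁻¹ * Real.log u ^ (-(9 / 10) : ℝ)))
    (hunb : ∀ C : ℝ, ∃ u : ℝ, 1 ≤ u ∧ C < |θ1 u|) (x1 : ℝ) :
    ∃ x : ℝ, x1 ≤ x ∧ Real.exp (Real.posLog |θ1 (Real.log x)| ^ (1 / 2 - δ)) * Real.sqrt x < ‖modulated mo θ x‖ := by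
  by_contra hcon
  push Not at hcon
  set x0 := max x1 (Real.exp 1) with hx0def
  have hx0 : Real.exp 1 ≤ x0 := le_max_right _ _
  have hneg : ∀ x : ℝ, x0 ≤ x → ‖modulated mo θ x‖ ≤ Real.exp (Real.posLog |θ1 (Real.log x)| ^ (1 / 2 - δ)) * Real.sqrt x :=
    fun x hx => hcon x ((le_max_left _ _).trans hx)
  have ha : ∀ n : ℕ, |((mo n : ℤ) : ℝ)| ≤ 1 := Pool.Agent.Helper99.MS.abs_mr
  have hθ' : ∀ u : ℝ, 0 < u → HasDerivAt θ (θ1 u) u := fun u hu => (hθ u hu).1
  have hd : ∀ u : ℝ, 0 < u → HasDerivAt θ1 (θ2 u) u := fun u hu => (hθ u hu).2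
  have hc : ∀ u : ℝ, 0 < u → ContinuousAt θ1 u := fun u hu => (hd u hu).continuousAt
  obtain ⟨K1, hK1, hs⟩ := speed_le hu0 hK hd h2
  have hp0 : (0:ℝ) ≤ 1 / 2 - δ := by linarith
  have hp1 : 1 / 2 - δ ≤ 1 := by linarith
  obtain ⟨B, hB⟩ := grow hp0 hp1 hK hK1 hθ' hc hs hx0 hneg
  obtain ⟨c, T0, -, hcore⟩ := hcore B
  set e := min (δ / 2) (1 / 4) with he
  have he0 : 0 < e := lt_min (by positivity) (by norm_num)
  have he4 : e ≤ 1 / 4 := min_le_right _ _
  have heδ : e < δ := (min_le_left _ _).trans_lt (by linarith)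
  obtain ⟨V1, H1, hlv⟩ := hlv e he0 he4
  -- the conditions on `U`
  have hlogU : ∀ᶠ U : ℝ in atTop, max u0 1 ≤ U - 3 * Real.log U := by
    have h5 : (fun x : ℝ => Real.log x) =o[atTop] fun x => x := Real.isLittleO_log_id_atTop
    have h6 := h5.bound (show (0:ℝ) < 1 / 6 by norm_num)
    filter_upwards [h6, eventually_ge_atTop (1 : ℝ), eventually_ge_atTop (2 * max u0 1)] with U b1 b2 b3
    rw [Real.norm_of_nonneg (Real.log_nonneg b2), Real.norm_of_nonneg (by linarith : (0:ℝ) ≤ U)] at b1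
    linarith
  have hTU : ∀ᶠ U : ℝ in atTop, K1 + 10 * K * Real.log U ^ (1 / 10 : ℝ) ≤ U := by
    have h5 : Tendsto (fun U : ℝ => (K1 + 10 * K) * (Real.log U / U) + (K1 + 10 * K) * U⁻¹) atTop (𝓝 ((K1 + 10 * K) * 0 + (K1 + 10 * K) * 0)) := by
      apply Tendsto.add
      · exact (Real.isLittleO_log_id_atTop.tendsto_div_nhds_zero).const_mul _
      · exact tendsto_inv_atTop_zero.const_mul _
    rw [mul_zero, add_zero] at h5
    have h6 := h5.eventually (ge_mem_nhds (show (0:ℝ) < 1 by norm_num))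
    filter_upwards [h6, eventually_ge_atTop (Real.exp 1)] with U b1 b2
    have hU0 : 0 < U := (Real.exp_pos 1).trans_le b2
    have hl : 1 ≤ Real.log U := by rwa [Real.le_log_iff_exp_le hU0]
    have h7 : Real.log U ^ (1 / 10 : ℝ) ≤ Real.log U := by
      calc Real.log U ^ (1 / 10 : ℝ) ≤ Real.log U ^ (1 : ℝ) := Real.rpow_le_rpow_of_exponent_le hl (by norm_num)
        _ = _ := Real.rpow_one _
    have h8 : (K1 + 10 * K) * (Real.log U + 1) ≤ U := by
      have := mul_le_mul_of_nonneg_right b1 hU0.le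
      calc (K1 + 10 * K) * (Real.log U + 1) = ((K1 + 10 * K) * (Real.log U / U) + (K1 + 10 * K) * U⁻¹) * U := by
            field_simp
        _ ≤ 1 * U := this
        _ = U := one_mul U
    have h9 := mul_le_mul_of_nonneg_left h7 (show 0 ≤ 10 * K by positivity)
    nlinarith
  obtain ⟨Us, hUs⟩ := eventually_atTop.1 (hlogU.and (hTU.and ((win_small K).and ((ev_U hK hK1).and (eventually_ge_atTop (100 : ℝ))))))
  -- the conditions on `H`
  have hVt : ∀ᶠ H : ℝ in atTop, V1 ≤ Real.exp (Real.log H ^ (1 / 2 - e)) := by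
    have h5 : Tendsto (fun H : ℝ => Real.exp (Real.log H ^ (1 / 2 - e))) atTop atTop :=
      Real.tendsto_exp_atTop.comp ((tendsto_rpow_atTop (by linarith)).comp Real.tendsto_log_atTop)
    exact h5.eventually (eventually_ge_atTop V1)
  obtain ⟨Hs, hHs⟩ := eventually_atTop.1 (hVt.and ((ev_H hδ hδ2 heδ c (3 + 2 * Real.sqrt x0 + 1)).and ((eventually_ge_atTop H1).and
    ((eventually_ge_atTop (1 : ℝ)).and ((eventually_ge_atTop (T0 : ℝ)).and ((eventually_gt_atTop (K1 + 10 * K * Real.log (max Us 1) ^ (1 / 10 : ℝ))).and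
    (eventually_gt_atTop |θ1 1|)))))))
  obtain ⟨a1, a2, a3, a4, a5, a6, a7⟩ := hHs Hs le_rfl
  set H := Hs with hH
  set V := Real.exp (Real.log H ^ (1 / 2 - e)) with hV
  -- a good `t`
  have hpos : 0 < volume {t : ℝ | H ≤ t ∧ t ≤ H + H ∧
      (∃ n : ℕ, 1 ≤ n ∧ (n : ℝ) ≤ H ^ (1 / 8 : ℝ) ∧ V * Real.sqrt n < ‖Pool.Agent.IT.Sw Pool.Agent.IT.muc t n‖) ∧
      ∃ n : ℕ, 1 ≤ n ∧ (n : ℝ) ≤ H ^ (1 / 8 : ℝ) ∧ V * Real.sqrt n < ‖Pool.Agent.IT.Sw Pool.Agent.IT.lac t n‖} :=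
    lt_of_lt_of_le (ENNReal.ofReal_pos.2 (by positivity)) (hlv H a3 V a1 le_rfl H)
  obtain ⟨t, ht1, ht2, ⟨n, hn1, hn2, hn3⟩, -⟩ := nonempty_of_measure_ne_zero hpos.ne'
  have ht0 : 0 < t := by linarith
  obtain ⟨w, hw1, hw2⟩ := hunb t
  obtain ⟨U, hU1, hUt, hUv⟩ := first_time hc (by linarith : |θ1 1| < t) ⟨w, hw1, hw2.le⟩
  have hUUs : Us ≤ U := by
    by_contra h
    have h := not_le.1 h
    have h5 := hs U hU1.le
    have h6 : Real.log U ^ (1 / 10 : ℝ) ≤ Real.log (max Us 1) ^ (1 / 10 : ℝ) :=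
      Real.rpow_le_rpow (Real.log_nonneg hU1.le) (Real.log_le_log (by linarith) (h.le.trans (le_max_left _ _))) (by norm_num)
    have h7 := mul_le_mul_of_nonneg_left h6 (show 0 ≤ 10 * K by positivity)
    linarith
  obtain ⟨b1, b2, b3, b4, b5⟩ := hUs U hUUs
  have b1a : u0 ≤ U - 3 * Real.log U := (le_max_left _ _).trans b1
  have b1b : 1 ≤ U - 3 * Real.log U := (le_max_right _ _).trans b1
  have hlU : 0 ≤ Real.log U := Real.log_nonneg (by linarith)
  set W := 4 * U * Real.exp (Real.sqrt (Real.log U)) with hW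
  have hUW : U ≤ W := by
    have : 1 ≤ Real.exp (Real.sqrt (Real.log U)) := Real.one_le_exp (Real.sqrt_nonneg _)
    rw [hW]; nlinarith
  set s := θ1 U with hsdef
  have htle : t ≤ K1 + 10 * K * Real.log U ^ (1 / 10 : ℝ) := by rw [← hUt]; exact hs U hU1.le
  have htU : t ≤ U := htle.trans b2
  -- the speed on the window
  have hwin : ∀ v ∈ Set.Icc (U - 3 * Real.log U) W, |θ1 v - s| ≤ 1 / 4 := by
    intro v hv
    have hv1 : |θ1 v - θ1 (U - 3 * Real.log U)| ≤ 1 / 8 := by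
      refine (var_le hu0 hd h2 b1a hv.1).trans (le_trans ?_ b3)
      apply mul_le_mul_of_nonneg_left _ (by positivity)
      have h5 : Real.log v ^ (1 / 10 : ℝ) ≤ Real.log W ^ (1 / 10 : ℝ) :=
        Real.rpow_le_rpow (Real.log_nonneg (by linarith [hv.1])) (Real.log_le_log (by linarith [hv.1]) hv.2) (by norm_num)
      linarith
    have hv2 : |θ1 U - θ1 (U - 3 * Real.log U)| ≤ 1 / 8 := by
      refine (var_le hu0 hd h2 b1a (by linarith)).trans (le_trans ?_ b3)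
      apply mul_le_mul_of_nonneg_left _ (by positivity)
      have h5 : Real.log U ^ (1 / 10 : ℝ) ≤ Real.log W ^ (1 / 10 : ℝ) :=
        Real.rpow_le_rpow hlU (Real.log_le_log (by linarith) hUW) (by norm_num)
      linarith
    have h5 : θ1 v - s = (θ1 v - θ1 (U - 3 * Real.log U)) - (θ1 U - θ1 (U - 3 * Real.log U)) := by rw [hsdef]; ring
    rw [h5]
    refine (abs_sub _ _).trans ?_
    linarith
  -- the bound on the modulated sum up to `e^W`
  set C := Real.sqrt x0 + Real.exp (Real.log (2 * H + 1) ^ (1 / 2 - δ)) with hC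
  have hFC : ∀ x : ℝ, 1 ≤ x → x ≤ Real.exp W → ‖modulated mo θ x‖ ≤ C * Real.sqrt x := by
    intro x hx1' hx2'
    have hsq := Real.sqrt_nonneg x
    rcases le_total x0 x with h | h
    · refine (hneg x h).trans (mul_le_mul_of_nonneg_right ?_ hsq)
      have hlx : 1 ≤ Real.log x := by rw [Real.le_log_iff_exp_le (by linarith)]; linarith
      have hlxW : Real.log x ≤ W := (Real.log_le_iff_le_exp (by linarith)).2 hx2'
      have h5 : |θ1 (Real.log x)| ≤ 2 * H + 1 := by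
        rcases le_total (Real.log x) U with h6 | h6
        · have := hUv (Real.log x) ⟨hlx, h6⟩
          linarith
        · have h7 := hwin (Real.log x) ⟨by linarith, hlxW⟩
          have h8 : |θ1 (Real.log x)| ≤ |s| + |θ1 (Real.log x) - s| := by
            have := abs_add_le s (θ1 (Real.log x) - s)
            rwa [add_sub_cancel] at this
          linarith
      have h6 : Real.posLog |θ1 (Real.log x)| ≤ Real.log (2 * H + 1) := by
        have h7 : Real.posLog |θ1 (Real.log x)| ≤ Real.posLog (2 * H + 1) := Real.posLog_le_posLog (abs_nonneg _) h5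
        refine h7.trans (le_of_eq ?_)
        unfold Real.posLog
        exact max_eq_right (Real.log_nonneg (by linarith))
      have h7 : Real.exp (Real.posLog |θ1 (Real.log x)| ^ (1 / 2 - δ)) ≤ Real.exp (Real.log (2 * H + 1) ^ (1 / 2 - δ)) :=
        Real.exp_le_exp.2 (Real.rpow_le_rpow Real.posLog_nonneg h6 hp0)
      linarith [Real.sqrt_nonneg x0]
    · refine (mod_le ha θ (by linarith : (0:ℝ) ≤ x)).trans ?_
      have h1 : x = Real.sqrt x * Real.sqrt x := (Real.mul_self_sqrt (by linarith)).symm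
      have h3 : Real.sqrt x ≤ C := (Real.sqrt_le_sqrt h).trans (by rw [hC]; linarith [Real.exp_pos (Real.log (2 * H + 1) ^ (1 / 2 - δ))])
      calc x = Real.sqrt x * Real.sqrt x := h1
        _ ≤ _ := mul_le_mul_of_nonneg_right h3 hsq
  have hC0 : 0 ≤ C := by rw [hC]; positivity
  -- the bound on the window
  have hA : ∀ x : ℝ, U ≤ x → x ≤ W → ‖modulated mo (fun u => s * u) (Real.exp x)‖ ≤ (3 + 2 * C) * Real.exp (x / 2) := by
    intro x hxU hxW
    have h5 := window ha hθ' hc b5 b1b hUv (by rw [hUt]) htU hwin hFC (Real.exp_le_exp.2 hxU) (Real.exp_le_exp.2 hxW)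
    have h6 : Real.sqrt (Real.exp x) = Real.exp (x / 2) := by
      rw [Real.sqrt_eq_rpow, ← Real.exp_mul]; congr 1; ring
    rw [h6] at h5
    have h7 : 1 ≤ Real.exp (x / 2) := Real.one_le_exp (by linarith)
    linarith
  -- the core
  set T := ⌈t⌉₊ with hT
  have hTt : t ≤ T := Nat.le_ceil t
  have hTt1 : (T : ℝ) < t + 1 := Nat.ceil_lt_add_one ht0.le
  have hcond : (T : ℝ) ^ 4 * (1 + Real.log (Real.log U)) ≤ Real.sqrt (Real.log U) := by
    refine le_trans ?_ b4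
    by_cases hll : 0 ≤ 1 + Real.log (Real.log U)
    · apply mul_le_mul_of_nonneg_right _ hll
      apply pow_le_pow_left₀ (Nat.cast_nonneg T)
      linarith
    · have h5 : (T : ℝ) ^ 4 * (1 + Real.log (Real.log U)) ≤ 0 := mul_nonpos_of_nonneg_of_nonpos (by positivity) (not_le.1 hll).le
      exfalso
      have : Real.exp 1 ≤ U := by linarith [Real.exp_one_lt_three]
      have h6 : 1 ≤ Real.log U := by rwa [Real.le_log_iff_exp_le (by linarith)]
      have := Real.log_nonneg h6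
      linarith
  have hnT : n ≤ T := by
    have h5 : (n : ℝ) ≤ t := by
      refine hn2.trans (le_trans ?_ ht1)
      calc H ^ (1 / 8 : ℝ) ≤ H ^ (1 : ℝ) := Real.rpow_le_rpow_of_exponent_le a4 (by norm_num)
        _ = H := Real.rpow_one H
    exact_mod_cast h5.trans hTt
  have hUe : Real.exp 1 ≤ U := by linarith [Real.exp_one_lt_three]
  have hT0T : T0 ≤ T := by
    have : (T0 : ℝ) ≤ T := by linarith
    exact_mod_cast this
  have hfin := hcore T hT0T s U (3 + 2 * C) (by rw [hUt]; exact hTt) hUe hB hcond (by positivity)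
    (fun x h1 h2 => by rw [← Gt_eq]; exact hA x h1 h2) n hn1 hnT
  rw [← Gt_eq, ← norm_Sw hUt] at hfin
  have hsn : 0 < Real.sqrt n := Real.sqrt_pos.2 (by exact_mod_cast (by omega : 0 < n))
  have h10 : V < c * (3 + 2 * C + 1) := by
    by_contra h
    have h := not_lt.1 h
    have := mul_le_mul_of_nonneg_right h hsn.le
    linarith
  have h11 : c * (3 + 2 * C + 1) = c * (3 + 2 * Real.sqrt x0 + 1 + 2 * Real.exp (Real.log (2 * H + 1) ^ (1 / 2 - δ))) := by
    rw [hC]; ring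
  linarith

end Pool.Agent.Helper50.CH
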