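import Pool.Agent.Helper50.CH.Par
import Pool.Agent.Helper99.MS.Mz

/-!
# Slowly modulated sums: first times, the size of the speed, the growth bound
-/

set_option autoImplicit false

open Finset MeasureTheory Filter Topology

namespace Pool.Agent.Helper50.CH

/-- the first time at which the absolute speed is `t` -/
theorem first_time {θ1 : ℝ → ℝ} (hc : ∀ u : ℝ, 0 < u → ContinuousAt θ1 u) {t : ℝ} (h1 : |θ1 1| < t)
    (hex : ∃ u : ℝ, 1 ≤ u ∧ t ≤ |θ1 u|) : ∃ U : ℝ, 1 < U ∧ |θ1 U| = t ∧ ∀ v ∈ Set.Icc 1 U, |θ1 v| ≤ t := by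
  obtain ⟨b, hb1, hb⟩ := hex
  have hcon : ∀ c : ℝ, ContinuousOn (fun u => |θ1 u|) (Set.Icc 1 c) := fun c u hu =>
    (hc u (by linarith [hu.1])).abs.continuousWithinAt
  have hclosed : IsClosed (Set.Icc 1 b ∩ (fun u => |θ1 u|) ⁻¹' Set.Ici t) :=
    (hcon b).preimage_isClosed_of_isClosed isClosed_Icc isClosed_Ici
  have hcomp : IsCompact (Set.Icc 1 b ∩ (fun u => |θ1 u|) ⁻¹' Set.Ici t) :=
    isCompact_Icc.of_isClosed_subset hclosed Set.inter_subset_left
  obtain ⟨U, ⟨hU1, hU2⟩, hU3⟩ := hcomp.exists_isLeast ⟨b, ⟨hb1, le_rfl⟩, hb⟩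
  have hU2' : t ≤ |θ1 U| := hU2
  have hU : 1 < U := by
    rcases eq_or_lt_of_le hU1.1 with h | h
    · rw [← h] at hU2'
      linarith
    · exact h
  have hlt : ∀ v : ℝ, 1 ≤ v → v < U → |θ1 v| < t := by
    intro v hv hvU
    by_contra h
    have := hU3 (⟨⟨hv, by linarith [hU1.2]⟩, not_lt.1 h⟩ : v ∈ Set.Icc 1 b ∩ (fun u => |θ1 u|) ⁻¹' Set.Ici t)
    linarith
  have heq : |θ1 U| = t := by
    refine le_antisymm ?_ hU2'
    by_contra h
    have h := not_le.1 h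
    have hivt := intermediate_value_Icc hU.le (hcon U)
    obtain ⟨v, hv, hvt⟩ := hivt ⟨h1.le, h.le⟩
    simp only at hvt
    rcases eq_or_lt_of_le hv.2 with h2 | h2
    · rw [h2] at hvt; linarith
    · have := hlt v hv.1 h2; linarith
  refine ⟨U, hU, heq, fun v hv => ?_⟩
  rcases eq_or_lt_of_le hv.2 with h | h
  · rw [h]; exact heq.le
  · exact (hlt v hv.1 h).le

/-- the size of the speed -/
theorem speed_le {θ1 θ2 : ℝ → ℝ} {K u0 : ℝ} (hu0 : Real.exp 1 ≤ u0) (hK : 0 ≤ K) (hd : ∀ u : ℝ, 0 < u → HasDerivAt θ1 (θ2 u) u)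
    (h2 : ∀ u : ℝ, u0 ≤ u → |θ2 u| ≤ K * (u⁻¹ * Real.log u ^ (-(9 / 10) : ℝ))) :
    ∃ K1 : ℝ, 0 ≤ K1 ∧ ∀ u : ℝ, 1 ≤ u → |θ1 u| ≤ K1 + 10 * K * Real.log u ^ (1 / 10 : ℝ) := by
  have he : (1 : ℝ) < Real.exp 1 := by have := Real.add_one_lt_exp (one_ne_zero (α := ℝ)); linarith
  have hcon : ContinuousOn θ1 (Set.Icc 1 u0) := fun u hu => (hd u (by linarith [hu.1])).continuousAt.continuousWithinAt
  obtain ⟨K1, hK1⟩ := isCompact_Icc.exists_bound_of_continuousOn hcon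
  have hK10 : 0 ≤ K1 := (norm_nonneg _).trans (hK1 1 ⟨le_rfl, by linarith⟩)
  refine ⟨K1, hK10, fun u hu => ?_⟩
  have hp : 0 ≤ 10 * K * Real.log u ^ (1 / 10 : ℝ) := by
    have := Real.rpow_nonneg (Real.log_nonneg hu) (1 / 10 : ℝ)
    positivity
  rcases le_total u u0 with h | h
  · have := hK1 u ⟨hu, h⟩
    rw [Real.norm_eq_abs] at this
    linarith
  · have h3 := var_le hu0 hd h2 le_rfl h
    have h4 := hK1 u0 ⟨by linarith, le_rfl⟩
    rw [Real.norm_eq_abs] at h4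
    have h5 : 0 ≤ 10 * K * Real.log u0 ^ (1 / 10 : ℝ) := by
      have := Real.rpow_nonneg (Real.log_nonneg (show (1:ℝ) ≤ u0 by linarith)) (1 / 10 : ℝ)
      positivity
    have h6 : |θ1 u| ≤ |θ1 u0| + |θ1 u - θ1 u0| := by
      have := abs_add_le (θ1 u0) (θ1 u - θ1 u0)
      rwa [add_sub_cancel] at this
    linarith

theorem exp_posLog_le {p y : ℝ} (hp0 : 0 ≤ p) (hp : p ≤ 1) : Real.exp (Real.posLog |y| ^ p) ≤ Real.exp 1 * (1 + |y|) := by
  have h0 : 0 ≤ Real.posLog |y| := Real.posLog_nonneg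
  have h1 : Real.posLog |y| ^ p ≤ 1 + Real.posLog |y| := by
    rcases le_total (Real.posLog |y|) 1 with h | h
    · have := Real.rpow_le_one h0 h hp0
      linarith
    · have := Real.rpow_le_rpow_of_exponent_le h hp
      rw [Real.rpow_one] at this
      linarith
  have h2 : Real.exp (Real.posLog |y|) ≤ 1 + |y| := by
    unfold Real.posLog
    rcases le_total (Real.log |y|) 0 with h | h
    · rw [max_eq_left h, Real.exp_zero]
      linarith [abs_nonneg y]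
    · rw [max_eq_right h]
      rcases eq_or_lt_of_le (abs_nonneg y) with h3 | h3
      · rw [← h3]; simp
      · rw [Real.exp_log h3]; linarith
  calc Real.exp (Real.posLog |y| ^ p) ≤ Real.exp (1 + Real.posLog |y|) := Real.exp_le_exp.2 h1
    _ = Real.exp 1 * Real.exp (Real.posLog |y|) := Real.exp_add _ _
    _ ≤ _ := mul_le_mul_of_nonneg_left h2 (Real.exp_pos 1).le

/-- a crude bound for the modulated sum from the negation -/
theorem crude {a : ℕ → ℤ} (ha : ∀ n, |(a n : ℝ)| ≤ 1) {θ θ1 : ℝ → ℝ} {K K1 p x0 : ℝ} (hp0 : 0 ≤ p) (hp : p ≤ 1) (hK : 0 ≤ K) (hK1 : 0 ≤ K1)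
    (hs : ∀ u : ℝ, 1 ≤ u → |θ1 u| ≤ K1 + 10 * K * Real.log u ^ (1 / 10 : ℝ)) (hx0 : Real.exp 1 ≤ x0)
    (hneg : ∀ x : ℝ, x0 ≤ x → ‖modulated a θ x‖ ≤ Real.exp (Real.posLog |θ1 (Real.log x)| ^ p) * Real.sqrt x)
    {x y : ℝ} (hx : Real.exp 1 ≤ x) (hy1 : 1 ≤ y) (hyx : y ≤ x) :
    ‖modulated a θ y‖ ≤ (3 + Real.sqrt x0) * (1 + (K1 + 10 * K * Real.log (Real.log x) ^ (1 / 10 : ℝ))) * Real.sqrt y := by
  have he : (1 : ℝ) < Real.exp 1 := by have := Real.add_one_lt_exp (one_ne_zero (α := ℝ)); linarith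
  have hlx : 1 ≤ Real.log x := by rwa [Real.le_log_iff_exp_le (by linarith)]
  have hpx : 0 ≤ Real.log (Real.log x) ^ (1 / 10 : ℝ) := Real.rpow_nonneg (Real.log_nonneg hlx) _
  have hTh : 0 ≤ K1 + 10 * K * Real.log (Real.log x) ^ (1 / 10 : ℝ) := by positivity
  have hsx0 : 0 ≤ Real.sqrt x0 := Real.sqrt_nonneg _
  rcases le_total x0 y with h | h
  · refine (hneg y h).trans ?_
    apply mul_le_mul_of_nonneg_right _ (Real.sqrt_nonneg _)
    have hly : 1 ≤ Real.log y := by rw [Real.le_log_iff_exp_le (by linarith)]; linarith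
    have hlyx : Real.log y ≤ Real.log x := Real.log_le_log (by linarith) hyx
    have h1 := exp_posLog_le (y := θ1 (Real.log y)) hp0 hp
    have h2 := hs (Real.log y) hly
    have h3 : Real.log (Real.log y) ^ (1 / 10 : ℝ) ≤ Real.log (Real.log x) ^ (1 / 10 : ℝ) :=
      Real.rpow_le_rpow (Real.log_nonneg hly) (Real.log_le_log (by linarith) hlyx) (by norm_num)
    have h4 : 10 * K * Real.log (Real.log y) ^ (1 / 10 : ℝ) ≤ 10 * K * Real.log (Real.log x) ^ (1 / 10 : ℝ) :=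
      mul_le_mul_of_nonneg_left h3 (by positivity)
    have h5 : Real.exp 1 ≤ 3 + Real.sqrt x0 := by linarith [Real.exp_one_lt_three]
    calc _ ≤ Real.exp 1 * (1 + |θ1 (Real.log y)|) := h1
      _ ≤ (3 + Real.sqrt x0) * (1 + (K1 + 10 * K * Real.log (Real.log x) ^ (1 / 10 : ℝ))) :=
        mul_le_mul h5 (by linarith) (by positivity) (by positivity)
  · refine (mod_le ha θ (by linarith : (0:ℝ) ≤ y)).trans ?_
    have h1 : y = Real.sqrt y * Real.sqrt y := (Real.mul_self_sqrt (by linarith)).symm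
    have h2 : Real.sqrt y ≤ Real.sqrt x0 := Real.sqrt_le_sqrt h
    have h3 : Real.sqrt x0 ≤ (3 + Real.sqrt x0) * (1 + (K1 + 10 * K * Real.log (Real.log x) ^ (1 / 10 : ℝ))) := by nlinarith
    calc y = Real.sqrt y * Real.sqrt y := h1
      _ ≤ _ := mul_le_mul_of_nonneg_right (h2.trans h3) (Real.sqrt_nonneg _)

theorem th_sq {K K1 u : ℝ} (hK : 0 ≤ K) (hK1 : 0 ≤ K1) (hu : 1 ≤ u) :
    (1 + (K1 + 10 * K * Real.log u ^ (1 / 10 : ℝ))) ^ 2 ≤ (1 + K1 + 10 * K) ^ 2 * Pool.Agent.Helper99.MS.ell u := by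
  have hL := Real.log_nonneg hu
  have h1 : Real.log u ^ (1 / 10 : ℝ) ≤ (1 + Real.log u) ^ (1 / 2 : ℝ) := by
    calc Real.log u ^ (1 / 10 : ℝ) ≤ (1 + Real.log u) ^ (1 / 10 : ℝ) := Real.rpow_le_rpow hL (by linarith) (by norm_num)
      _ ≤ _ := Real.rpow_le_rpow_of_exponent_le (by linarith) (by norm_num)
  have h2 : 1 ≤ (1 + Real.log u) ^ (1 / 2 : ℝ) := Real.one_le_rpow (by linarith) (by norm_num)
  have h3 : ((1 + Real.log u) ^ (1 / 2 : ℝ)) ^ 2 = 1 + Real.log u := by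
    rw [← Real.sqrt_eq_rpow, Real.sq_sqrt (by linarith)]
  have h4 : 1 + (K1 + 10 * K * Real.log u ^ (1 / 10 : ℝ)) ≤ (1 + K1 + 10 * K) * (1 + Real.log u) ^ (1 / 2 : ℝ) := by
    have h5 := mul_le_mul_of_nonneg_left h1 (show 0 ≤ 10 * K by positivity)
    nlinarith
  have h6 : 0 ≤ Real.log u ^ (1 / 10 : ℝ) := Real.rpow_nonneg hL _
  calc (1 + (K1 + 10 * K * Real.log u ^ (1 / 10 : ℝ))) ^ 2 ≤ ((1 + K1 + 10 * K) * (1 + Real.log u) ^ (1 / 2 : ℝ)) ^ 2 :=
        pow_le_pow_left₀ (by positivity) h4 2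
    _ = (1 + K1 + 10 * K) ^ 2 * (1 + Real.log u) := by rw [mul_pow, h3]
    _ ≤ _ := by
        apply mul_le_mul_of_nonneg_left _ (by positivity)
        unfold Pool.Agent.Helper99.MS.ell
        have : Real.log u ≤ Real.log (1 + |u|) := Real.log_le_log (by linarith) (by linarith [le_abs_self u])
        linarith

/-- the growth bound for the plain sum, from the negation -/
theorem grow {θ θ1 : ℝ → ℝ} {K K1 p x0 : ℝ} (hp0 : 0 ≤ p) (hp : p ≤ 1) (hK : 0 ≤ K) (hK1 : 0 ≤ K1)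
    (hθ : ∀ u : ℝ, 0 < u → HasDerivAt θ (θ1 u) u) (hθc : ∀ u : ℝ, 0 < u → ContinuousAt θ1 u)
    (hs : ∀ u : ℝ, 1 ≤ u → |θ1 u| ≤ K1 + 10 * K * Real.log u ^ (1 / 10 : ℝ)) (hx0 : Real.exp 1 ≤ x0)
    (hneg : ∀ x : ℝ, x0 ≤ x → ‖modulated (fun n => ArithmeticFunction.moebius n) θ x‖ ≤
      Real.exp (Real.posLog |θ1 (Real.log x)| ^ p) * Real.sqrt x) :
    ∃ B : ℝ, Pool.Agent.Helper99.MS.GB (Pool.Agent.Helper99.MS.ff Pool.Agent.Helper99.MS.mr) B := by
  have he : (1 : ℝ) < Real.exp 1 := by have := Real.add_one_lt_exp (one_ne_zero (α := ℝ)); linarith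
  have ha : ∀ n : ℕ, |((ArithmeticFunction.moebius n : ℤ) : ℝ)| ≤ 1 := Pool.Agent.Helper99.MS.abs_mr
  have hsx0 : 0 ≤ Real.sqrt x0 := Real.sqrt_nonneg _
  have hA : ∀ x : ℝ, |Pool.Agent.Helper99.MS.Asum Pool.Agent.Helper99.MS.mr x| = ‖modulated (fun n => ArithmeticFunction.moebius n) (fun _ => 0) x‖ := by
    intro x
    have : modulated (fun n => ArithmeticFunction.moebius n) (fun _ => 0) x = ((Pool.Agent.Helper99.MS.Asum Pool.Agent.Helper99.MS.mr x : ℝ) : ℂ) := by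
      unfold modulated Pool.Agent.Helper99.MS.Asum Pool.Agent.Helper99.MS.mr
      push_cast
      simp
    rw [this, Complex.norm_real, Real.norm_eq_abs]
  refine ⟨3 + 2 * (3 + Real.sqrt x0) * (1 + K1 + 10 * K) ^ 2, fun u => ?_⟩
  have hell := Pool.Agent.Helper99.MS.one_le_ell u
  have hB : 0 ≤ 2 * (3 + Real.sqrt x0) * (1 + K1 + 10 * K) ^ 2 := by positivity
  rcases lt_or_ge u 1 with hu | hu
  · rcases lt_or_ge u 0 with hu0 | hu0
    · rw [Pool.Agent.Helper99.MS.ff_neg hu0, abs_zero]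
      positivity
    · unfold Pool.Agent.Helper99.MS.ff
      rw [abs_mul, abs_of_pos (Real.exp_pos (-(u / 2))), hA]
      have h1 := mod_le ha (fun _ => 0) (Real.exp_pos u).le
      calc _ ≤ Real.exp u * Real.exp (-(u / 2)) := mul_le_mul_of_nonneg_right h1 (Real.exp_pos _).le
        _ = Real.exp (u / 2) := by rw [← Real.exp_add]; congr 1; ring
        _ ≤ Real.exp 1 := Real.exp_le_exp.2 (by linarith)
        _ ≤ 3 := Real.exp_one_lt_three.le
        _ ≤ _ := by nlinarith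
  · set x := Real.exp u with hx
    have hx1 : Real.exp 1 ≤ x := Real.exp_le_exp.2 hu
    have hlx : Real.log x = u := Real.log_exp u
    set Th := K1 + 10 * K * Real.log u ^ (1 / 10 : ℝ) with hTh
    have hlu := Real.rpow_nonneg (Real.log_nonneg hu) (1 / 10 : ℝ)
    have hTh0 : 0 ≤ Th := by positivity
    have hcr : ∀ y : ℝ, 1 ≤ y → y ≤ x → ‖modulated (fun n => ArithmeticFunction.moebius n) θ y‖ ≤ (3 + Real.sqrt x0) * (1 + Th) * Real.sqrt y := by
      intro y hy1 hy2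
      have := crude ha hp0 hp hK hK1 hs hx0 hneg hx1 hy1 hy2
      rwa [hlx] at this
    have hη : ∀ u : ℝ, 0 < u → HasDerivAt (fun _ : ℝ => (0:ℝ)) 0 u := fun u _ => hasDerivAt_const u 0
    have h1 := seg (a := fun n => ArithmeticFunction.moebius n) (η := fun _ => 0) (η1 := fun _ => 0) (D := Th) le_rfl hx1 hθ hη hθc
      (fun u _ => continuousAt_const) (fun v hv => by
        rw [Real.log_exp, hlx] at hv
        have h3 := hs v hv.1
        have h4 : Real.log v ^ (1 / 10 : ℝ) ≤ Real.log u ^ (1 / 10 : ℝ) :=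
          Real.rpow_le_rpow (Real.log_nonneg hv.1) (Real.log_le_log (by linarith [hv.1]) hv.2) (by norm_num)
        have h5 := mul_le_mul_of_nonneg_left h4 (show 0 ≤ 10 * K by positivity)
        rw [zero_sub, abs_neg]
        linarith) hcr
    have h2 := mod_le ha (fun _ => 0) (Real.exp_pos 1).le
    have h3 : Real.sqrt (Real.exp 1) ≤ Real.sqrt x := Real.sqrt_le_sqrt hx1
    have h4 : 1 ≤ Real.sqrt x := sqrt_one_le (by linarith)
    have h5 := th_sq hK hK1 hu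
    rw [← hTh] at h5
    have h6 : ‖modulated (fun n => ArithmeticFunction.moebius n) (fun _ => 0) x‖ ≤ (3 + 2 * (3 + Real.sqrt x0) * (1 + Th) ^ 2) * Real.sqrt x := by
      have h7 : 0 ≤ (3 + Real.sqrt x0) * (1 + Th) := by positivity
      have h8 := mul_le_mul_of_nonneg_left h3 h7
      nlinarith [Real.exp_one_lt_three]
    unfold Pool.Agent.Helper99.MS.ff
    rw [abs_mul, abs_of_pos (Real.exp_pos (-(u / 2))), hA]
    have h9 : Real.sqrt x * Real.exp (-(u / 2)) = 1 := by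
      rw [Real.sqrt_eq_rpow, hx, ← Real.exp_mul, ← Real.exp_add]
      rw [show u * (1 / 2) + -(u / 2) = 0 by ring, Real.exp_zero]
    calc _ ≤ (3 + 2 * (3 + Real.sqrt x0) * (1 + Th) ^ 2) * Real.sqrt x * Real.exp (-(u / 2)) :=
          mul_le_mul_of_nonneg_right h6 (Real.exp_pos _).le
      _ = 3 + 2 * (3 + Real.sqrt x0) * (1 + Th) ^ 2 := by rw [mul_assoc, h9, mul_one]
      _ ≤ 3 * Pool.Agent.Helper99.MS.ell u + 2 * (3 + Real.sqrt x0) * ((1 + K1 + 10 * K) ^ 2 * Pool.Agent.Helper99.MS.ell u) := by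
          have := mul_le_mul_of_nonneg_left h5 (show 0 ≤ 2 * (3 + Real.sqrt x0) by positivity)
          linarith
      _ = _ := by ring

end Pool.Agent.Helper50.CH
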