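import Pool.Agent.Helper50.CH.PS

/-!
# Slowly modulated sums: the dichotomy
-/

set_option autoImplicit false

open Finset MeasureTheory Filter Topology

namespace Pool.Agent.Helper50.CH

/-- the sum of `a(n) e^{iθ(log n)}` -/
noncomputable def modulated (a : ℕ → ℤ) (θ : ℝ → ℝ) (x : ℝ) : ℂ :=
  ∑ n ∈ Finset.Icc 1 ⌊x⌋₊, (a n : ℂ) * Complex.exp (Complex.I * (θ (Real.log n) : ℝ))

/-- `f(x) = O(√x)` -/
def RootBound (f : ℝ → ℂ) : Prop := ∃ C : ℝ, ∀ x : ℝ, 1 ≤ x → ‖f x‖ ≤ C * Real.sqrt x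

/-- the coefficients -/
noncomputable def cw (a : ℕ → ℤ) (θ : ℝ → ℝ) (k : ℕ) : ℂ :=
  if k = 0 then 0 else (a k : ℂ) * Complex.exp (Complex.I * (θ (Real.log k) : ℝ))

theorem sum_cw (a : ℕ → ℤ) (θ : ℝ → ℝ) (x : ℝ) : ∑ k ∈ Icc 0 ⌊x⌋₊, cw a θ k = modulated a θ x := by
  unfold modulated
  rw [← Finset.insert_Icc_succ_left_eq_Icc (Nat.zero_le _), Finset.sum_insert (by simp)]
  simp only [cw, if_true, zero_add]
  refine Finset.sum_congr rfl fun k hk => ?_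
  rw [if_neg (by have := (Finset.mem_Icc.1 hk).1; omega)]

theorem mod_le {a : ℕ → ℤ} (ha : ∀ n, |(a n : ℝ)| ≤ 1) (θ : ℝ → ℝ) {x : ℝ} (hx : 0 ≤ x) : ‖modulated a θ x‖ ≤ x := by
  unfold modulated
  refine (norm_sum_le _ _).trans ?_
  have h1 : ∀ n ∈ Icc 1 ⌊x⌋₊, ‖(a n : ℂ) * Complex.exp (Complex.I * (θ (Real.log n) : ℝ))‖ ≤ 1 := by
    intro n _
    rw [norm_mul, norm_ph, mul_one, Complex.norm_intCast]
    exact ha n
  refine (Finset.sum_le_sum h1).trans ?_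
  simp only [Finset.sum_const, Nat.card_Icc, Nat.add_sub_cancel, nsmul_eq_mul, mul_one]
  exact Nat.floor_le hx

theorem mod_sub (a : ℕ → ℤ) (η : ℝ → ℝ) {α β : ℝ} (h : α ≤ β) :
    modulated a η β - modulated a η α = ∑ k ∈ Ioc ⌊α⌋₊ ⌊β⌋₊, (a k : ℂ) * Complex.exp (Complex.I * (η (Real.log k) : ℝ)) := by
  unfold modulated
  have h1 : ⌊α⌋₊ ≤ ⌊β⌋₊ := Nat.floor_le_floor h
  rw [sub_eq_iff_eq_add', ← Finset.sum_union]
  · congr 1
    ext k
    simp only [Finset.mem_union, Finset.mem_Icc, Finset.mem_Ioc]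
    omega
  · rw [Finset.disjoint_left]
    intro k hk1 hk2
    rw [Finset.mem_Icc] at hk1
    rw [Finset.mem_Ioc] at hk2
    omega

/-- change of the modulation between `α` and `β` -/
theorem seg {a : ℕ → ℤ} {θ θ1 η η1 : ℝ → ℝ} {α β C D : ℝ} (hα : Real.exp 1 ≤ α) (hαβ : α ≤ β)
    (hθ : ∀ u : ℝ, 0 < u → HasDerivAt θ (θ1 u) u) (hη : ∀ u : ℝ, 0 < u → HasDerivAt η (η1 u) u)
    (hθc : ∀ u : ℝ, 0 < u → ContinuousAt θ1 u) (hηc : ∀ u : ℝ, 0 < u → ContinuousAt η1 u)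
    (hD : ∀ u ∈ Set.Icc (Real.log α) (Real.log β), |η1 u - θ1 u| ≤ D)
    (hC : ∀ x : ℝ, 1 ≤ x → x ≤ β → ‖modulated a θ x‖ ≤ C * Real.sqrt x) :
    ‖modulated a η β‖ ≤ ‖modulated a η α‖ + (C * Real.sqrt β + C * Real.sqrt α + 2 * D * C * Real.sqrt β) := by
  have he : (1 : ℝ) < Real.exp 1 := by have := Real.add_one_lt_exp (one_ne_zero (α := ℝ)); linarith
  have hα1 : 1 ≤ α := by linarith
  have hpos : ∀ u ∈ Set.Icc (Real.log α) (Real.log β), 0 < u := by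
    intro u hu
    have : 0 < Real.log α := Real.log_pos (by linarith)
    linarith [hu.1]
  have h1 := ps (c := cw a θ) (p := fun u => η u - θ u) (q := fun u => η1 u - θ1 u) hα1 hαβ
    (fun u hu => (hη u (hpos u hu)).sub (hθ u (hpos u hu)))
    (fun u hu => ((hηc u (hpos u hu)).sub (hθc u (hpos u hu))).continuousWithinAt) hD
    (fun t ht => by rw [sum_cw]; exact hC t (hα1.trans ht.1) ht.2)
  have h2 : modulated a η β = modulated a η α + ∑ k ∈ Ioc ⌊α⌋₊ ⌊β⌋₊, Complex.exp (Complex.I * ((η (Real.log k) - θ (Real.log k) : ℝ) : ℂ)) * cw a θ k := by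
    rw [← sub_eq_iff_eq_add', mod_sub a η hαβ]
    refine Finset.sum_congr rfl fun k hk => ?_
    have hk0 : k ≠ 0 := by have := (Finset.mem_Ioc.1 hk).1; omega
    unfold cw
    rw [if_neg hk0, mul_left_comm, ← Complex.exp_add]
    congr 2
    push_cast
    ring
  rw [h2]
  exact (norm_add_le _ _).trans (add_le_add le_rfl h1)

theorem sqrt_one_le {x : ℝ} (hx : 1 ≤ x) : 1 ≤ Real.sqrt x := by
  rw [Real.one_le_sqrt]; exact hx

/-- a bounded change of speed does not change the order `√x` -/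
theorem rb_of {a : ℕ → ℤ} (ha : ∀ n, |(a n : ℝ)| ≤ 1) {θ θ1 η η1 : ℝ → ℝ} {D : ℝ}
    (hθ : ∀ u : ℝ, 0 < u → HasDerivAt θ (θ1 u) u) (hη : ∀ u : ℝ, 0 < u → HasDerivAt η (η1 u) u)
    (hθc : ∀ u : ℝ, 0 < u → ContinuousAt θ1 u) (hηc : ∀ u : ℝ, 0 < u → ContinuousAt η1 u)
    (hD : ∀ u : ℝ, 1 ≤ u → |η1 u - θ1 u| ≤ D) (h : RootBound (modulated a θ)) : RootBound (modulated a η) := by
  obtain ⟨C, hC⟩ := h
  have hC0 : 0 ≤ C := by
    have h1 := (norm_nonneg _).trans (hC 1 le_rfl)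
    rwa [Real.sqrt_one, mul_one] at h1
  have hD0 : 0 ≤ D := (abs_nonneg _).trans (hD 1 le_rfl)
  have he3 : Real.exp 1 < 3 := Real.exp_one_lt_three
  refine ⟨3 + 2 * C + 2 * D * C, fun x hx => ?_⟩
  have hs := sqrt_one_le hx
  rcases le_total x (Real.exp 1) with h1 | h1
  · have h2 := mod_le ha η (show (0:ℝ) ≤ x by linarith)
    have h3 : 0 ≤ (2 * C + 2 * D * C) * Real.sqrt x := by positivity
    nlinarith
  · have h2 := seg le_rfl h1 hθ hη hθc hηc (D := D) (fun u hu => hD u (by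
      have := hu.1; rwa [Real.log_exp] at this)) (fun y hy _ => hC y hy)
    have h3 := mod_le ha η (Real.exp_pos 1).le
    have h4 : Real.sqrt (Real.exp 1) ≤ Real.sqrt x := Real.sqrt_le_sqrt h1
    nlinarith [mul_le_mul_of_nonneg_left h4 hC0]

/-- the cosine sum is at most the norm of the sum with the phase `n^{is}`, `|s| = t` -/
theorem cos_le {a : ℕ → ℤ} {s t : ℝ} (hst : |s| = t) {x : ℝ} (hx : 0 < x) :
    ∑ n ∈ Finset.Icc 1 ⌊x⌋₊, (a n : ℝ) * Real.cos (t * Real.log (x / n) + 0) ≤ ‖modulated a (fun u => s * u) x‖ := by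
  have h1 : ∑ n ∈ Finset.Icc 1 ⌊x⌋₊, (a n : ℝ) * Real.cos (t * Real.log (x / n) + 0) =
      (Complex.exp (Complex.I * ((-(s * Real.log x) : ℝ) : ℂ)) * modulated a (fun u => s * u) x).re := by
    unfold modulated
    rw [Finset.mul_sum, Complex.re_sum]
    refine Finset.sum_congr rfl fun n hn => ?_
    have hn0 : (0 : ℝ) < n := by exact_mod_cast (by have := (Finset.mem_Icc.1 hn).1; omega : 0 < n)
    have h2 : Real.cos (t * Real.log (x / n) + 0) = Real.cos (s * Real.log n - s * Real.log x) := by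
      rw [add_zero, ← hst, Real.log_div hx.ne' hn0.ne']
      rcases abs_cases s with ⟨h, _⟩ | ⟨h, _⟩
      · rw [h, ← Real.cos_neg]; congr 1; ring
      · rw [h]; congr 1; ring
    rw [h2, mul_left_comm, ← Complex.exp_add]
    have e1 : Complex.I * ((-(s * Real.log x) : ℝ) : ℂ) + Complex.I * ((s * Real.log n : ℝ) : ℂ) =
        ((s * Real.log n - s * Real.log x : ℝ) : ℂ) * Complex.I := by
      push_cast
      ring
    rw [e1, show ((a n : ℤ) : ℂ) = (((a n : ℤ) : ℝ) : ℂ) by push_cast; rfl, Complex.re_ofReal_mul, Complex.exp_ofReal_mul_I_re]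
  rw [h1]
  refine (Complex.re_le_norm _).trans ?_
  rw [norm_mul, norm_ph, one_mul]

end Pool.Agent.Helper50.CH
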