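import Mathlib

/-!
# Slowly modulated sums: partial summation with a slowly rotating phase
-/

set_option autoImplicit false

open Finset MeasureTheory Filter Topology

namespace Pool.Agent.Helper50.CH

theorem norm_ph (v : ℝ) : ‖Complex.exp (Complex.I * v)‖ = 1 := by
  rw [mul_comm, Complex.norm_exp_ofReal_mul_I]

/-- partial summation with a slowly rotating phase -/
theorem ps {c : ℕ → ℂ} {p q : ℝ → ℝ} {α β C D : ℝ} (hα : 1 ≤ α) (hαβ : α ≤ β)
    (hp : ∀ u ∈ Set.Icc (Real.log α) (Real.log β), HasDerivAt p (q u) u)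
    (hq : ContinuousOn q (Set.Icc (Real.log α) (Real.log β)))
    (hD : ∀ u ∈ Set.Icc (Real.log α) (Real.log β), |q u| ≤ D)
    (hC : ∀ t ∈ Set.Icc α β, ‖∑ k ∈ Icc 0 ⌊t⌋₊, c k‖ ≤ C * Real.sqrt t) :
    ‖∑ k ∈ Ioc ⌊α⌋₊ ⌊β⌋₊, Complex.exp (Complex.I * p (Real.log k)) * c k‖ ≤
      C * Real.sqrt β + C * Real.sqrt α + 2 * D * C * Real.sqrt β := by
  have hα0 : 0 < α := by linarith
  have hβ0 : 0 < β := by linarith
  have hC0 : 0 ≤ C := by
    have h := (norm_nonneg _).trans (hC α ⟨le_rfl, hαβ⟩)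
    by_contra hc
    have := mul_neg_of_neg_of_pos (not_le.1 hc) (Real.sqrt_pos.2 hα0)
    linarith
  have hD0 : 0 ≤ D := (abs_nonneg _).trans (hD (Real.log α) ⟨le_rfl, Real.log_le_log hα0 hαβ⟩)
  have hmem : ∀ t ∈ Set.Icc α β, Real.log t ∈ Set.Icc (Real.log α) (Real.log β) := by
    intro t ht
    exact ⟨Real.log_le_log hα0 ht.1, Real.log_le_log (by linarith [ht.1]) ht.2⟩
  set f : ℝ → ℂ := fun t => Complex.exp (Complex.I * p (Real.log t)) with hf
  have hder : ∀ t ∈ Set.Icc α β, HasDerivAt f (Complex.exp (Complex.I * p (Real.log t)) * (Complex.I * ((q (Real.log t) * t⁻¹ : ℝ) : ℂ))) t := by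
    intro t ht
    have ht0 : t ≠ 0 := by linarith [ht.1]
    have h1 : HasDerivAt (fun t => p (Real.log t)) (q (Real.log t) * t⁻¹) t := (hp _ (hmem t ht)).comp t (Real.hasDerivAt_log ht0)
    exact (h1.ofReal_comp.const_mul Complex.I).cexp
  have hdc : ContinuousOn (fun t : ℝ => Complex.exp (Complex.I * p (Real.log t)) * (Complex.I * ((q (Real.log t) * t⁻¹ : ℝ) : ℂ))) (Set.Icc α β) := by
    have hlog : ContinuousOn Real.log (Set.Icc α β) := Real.continuousOn_log.mono fun t ht => by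
      rw [Set.mem_compl_iff, Set.mem_singleton_iff]; linarith [ht.1]
    have hpc : ContinuousOn p (Set.Icc (Real.log α) (Real.log β)) := fun u hu => (hp u hu).continuousAt.continuousWithinAt
    have h1 : ContinuousOn (fun t => p (Real.log t)) (Set.Icc α β) := hpc.comp hlog hmem
    have h2 : ContinuousOn (fun t => q (Real.log t)) (Set.Icc α β) := hq.comp hlog hmem
    have h3 : ContinuousOn (fun t : ℝ => t⁻¹) (Set.Icc α β) := continuousOn_inv₀.mono fun t ht => by
      rw [Set.mem_compl_iff, Set.mem_singleton_iff]; linarith [ht.1]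
    apply ContinuousOn.mul
    · exact (continuousOn_const.mul (Complex.continuous_ofReal.comp_continuousOn h1)).cexp
    · exact continuousOn_const.mul (Complex.continuous_ofReal.comp_continuousOn (h2.mul h3))
  have hint : IntegrableOn (deriv f) (Set.Icc α β) := by
    refine (hdc.integrableOn_compact isCompact_Icc).congr_fun (fun t ht => ?_) measurableSet_Icc
    exact (hder t ht).deriv.symm
  have hmain := sum_mul_eq_sub_sub_integral_mul c hα0.le hαβ (fun t ht => (hder t ht).differentiableAt) hint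
  have hint2 : IntegrableOn (fun t : ℝ => D * C * t ^ (-(1 / 2) : ℝ)) (Set.Ioc α β) := by
    have h1 : ContinuousOn (fun t : ℝ => D * C * t ^ (-(1 / 2) : ℝ)) (Set.Icc α β) := by
      apply ContinuousOn.mul continuousOn_const
      exact fun t ht => (Real.continuousAt_rpow_const t _ (Or.inl (by linarith [ht.1]))).continuousWithinAt
    exact (h1.integrableOn_compact isCompact_Icc).mono_set Set.Ioc_subset_Icc_self
  have hbd : ‖∫ t in Set.Ioc α β, deriv f t * ∑ k ∈ Icc 0 ⌊t⌋₊, c k‖ ≤ ∫ t in Set.Ioc α β, D * C * t ^ (-(1 / 2) : ℝ) := by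
    apply norm_integral_le_of_norm_le hint2
    filter_upwards [ae_restrict_mem measurableSet_Ioc] with t ht
    have ht' : t ∈ Set.Icc α β := ⟨ht.1.le, ht.2⟩
    have ht0 : 0 < t := by linarith [ht.1]
    rw [(hder t ht').deriv, norm_mul, norm_mul, norm_mul, norm_ph, Complex.norm_I, one_mul, one_mul, Complex.norm_real,
      Real.norm_eq_abs, abs_mul, abs_of_pos (inv_pos.2 ht0)]
    have h1 := hD _ (hmem t ht')
    have h2 := hC t ht'
    have h3 : t ^ (-(1 / 2) : ℝ) = t⁻¹ * Real.sqrt t := by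
      rw [Real.sqrt_eq_rpow, ← Real.rpow_neg_one, ← Real.rpow_add ht0]
      norm_num
    rw [h3]
    calc |q (Real.log t)| * t⁻¹ * ‖∑ k ∈ Icc 0 ⌊t⌋₊, c k‖ ≤ D * t⁻¹ * (C * Real.sqrt t) := by gcongr
      _ = _ := by ring
  have hval : ∫ t in Set.Ioc α β, D * C * t ^ (-(1 / 2) : ℝ) = 2 * D * C * (Real.sqrt β - Real.sqrt α) := by
    rw [← intervalIntegral.integral_of_le hαβ, intervalIntegral.integral_const_mul, integral_rpow (Or.inl (by norm_num)),
      Real.sqrt_eq_rpow, Real.sqrt_eq_rpow]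
    norm_num
    ring
  have hA : ‖f β * ∑ k ∈ Icc 0 ⌊β⌋₊, c k‖ ≤ C * Real.sqrt β := by
    rw [norm_mul, hf, norm_ph, one_mul]
    exact hC β ⟨hαβ, le_rfl⟩
  have hB : ‖f α * ∑ k ∈ Icc 0 ⌊α⌋₊, c k‖ ≤ C * Real.sqrt α := by
    rw [norm_mul, hf, norm_ph, one_mul]
    exact hC α ⟨le_rfl, hαβ⟩
  have hsα := Real.sqrt_nonneg α
  have hDC : 0 ≤ 2 * D * C := by positivity
  rw [show (∑ k ∈ Ioc ⌊α⌋₊ ⌊β⌋₊, Complex.exp (Complex.I * p (Real.log k)) * c k) = ∑ k ∈ Ioc ⌊α⌋₊ ⌊β⌋₊, f k * c k from rfl, hmain]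
  refine (norm_sub_le _ _).trans ?_
  refine (add_le_add (norm_sub_le _ _) le_rfl).trans ?_
  rw [hval] at hbd
  nlinarith [mul_nonneg hDC hsα]

end Pool.Agent.Helper50.CH
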