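import Pool.Agent.Helper50.CH.Win

/-!
# Slowly modulated sums: speed with derivative `O(1 / (u (log u)^{9/10}))`
-/

set_option autoImplicit false

open Finset MeasureTheory Filter Topology

namespace Pool.Agent.Helper50.CH

/-- the speed changes by at most `25 K ((log b)^{1/10} - (log a)^{1/10})` -/
theorem var_le {θ1 θ2 : ℝ → ℝ} {K u0 : ℝ} (hu0 : Real.exp 1 ≤ u0) (hd : ∀ u : ℝ, 0 < u → HasDerivAt θ1 (θ2 u) u)
    (h2 : ∀ u : ℝ, u0 ≤ u → |θ2 u| ≤ K * (u⁻¹ * Real.log u ^ (-(9 / 10) : ℝ))) {a b : ℝ} (ha : u0 ≤ a) (hab : a ≤ b) :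
    |θ1 b - θ1 a| ≤ 10 * K * (Real.log b ^ (1 / 10 : ℝ) - Real.log a ^ (1 / 10 : ℝ)) := by
  have he : (1 : ℝ) < Real.exp 1 := by have := Real.add_one_lt_exp (one_ne_zero (α := ℝ)); linarith
  have hg : ∀ u : ℝ, u0 ≤ u → HasDerivAt (fun u => 10 * K * Real.log u ^ (1 / 10 : ℝ)) (K * (u⁻¹ * Real.log u ^ (-(9 / 10) : ℝ))) u := by
    intro u hu
    have hu1 : 1 < u := by linarith
    have hl : 0 < Real.log u := Real.log_pos hu1
    have h3 : HasDerivAt (fun u => Real.log u ^ (1 / 10 : ℝ)) (u⁻¹ * (1 / 10) * Real.log u ^ ((1 / 10 : ℝ) - 1)) u :=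
      (Real.hasDerivAt_log (by linarith)).rpow_const (Or.inl hl.ne')
    have h4 := h3.const_mul (10 * K)
    rw [show (1 / 10 : ℝ) - 1 = -(9 / 10) by norm_num] at h4
    have e : K * (u⁻¹ * Real.log u ^ (-(9 / 10) : ℝ)) = 10 * K * (u⁻¹ * (1 / 10) * Real.log u ^ (-(9 / 10) : ℝ)) := by ring
    rw [e]
    exact h4
  have hcont : ∀ (f f' : ℝ → ℝ), (∀ u : ℝ, u0 ≤ u → HasDerivAt f (f' u) u) → (∀ u : ℝ, u0 ≤ u → f' u ≤ 0) → f b ≤ f a := by
    intro f f' hf hf'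
    have hanti : AntitoneOn f (Set.Icc a b) := by
      apply antitoneOn_of_deriv_nonpos (convex_Icc a b)
      · exact fun u hu => (hf u (ha.trans hu.1)).continuousAt.continuousWithinAt
      · intro u hu
        rw [interior_Icc] at hu
        exact (hf u (ha.trans hu.1.le)).differentiableAt.differentiableWithinAt
      · intro u hu
        rw [interior_Icc] at hu
        rw [(hf u (ha.trans hu.1.le)).deriv]
        exact hf' u (ha.trans hu.1.le)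
    exact hanti ⟨le_rfl, hab⟩ ⟨hab, le_rfl⟩ hab
  have h5 := hcont (fun u => θ1 u - 10 * K * Real.log u ^ (1 / 10 : ℝ)) _ (fun u hu => (hd u (by linarith)).sub (hg u hu))
    (fun u hu => by linarith [(abs_le.1 (h2 u hu)).2])
  have h6 := hcont (fun u => -θ1 u - 10 * K * Real.log u ^ (1 / 10 : ℝ)) _ (fun u hu => (hd u (by linarith)).neg.sub (hg u hu))
    (fun u hu => by linarith [(abs_le.1 (h2 u hu)).1])
  have h5' : θ1 b - 10 * K * Real.log b ^ (1 / 10 : ℝ) ≤ θ1 a - 10 * K * Real.log a ^ (1 / 10 : ℝ) := h5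
  have h6' : -θ1 b - 10 * K * Real.log b ^ (1 / 10 : ℝ) ≤ -θ1 a - 10 * K * Real.log a ^ (1 / 10 : ℝ) := h6
  rw [abs_le]
  constructor <;> linarith

/-- the window `[U - 3 log U, 4 U exp(√(log U))]` is short for such speeds -/
theorem win_small (K : ℝ) : ∀ᶠ U : ℝ in atTop, 10 * K * (Real.log (4 * U * Real.exp (Real.sqrt (Real.log U))) ^ (1 / 10 : ℝ) -
    Real.log (U - 3 * Real.log U) ^ (1 / 10 : ℝ)) ≤ 1 / 8 := by
  have h1 : Tendsto (fun ℓ : ℝ => |K| * ((Real.sqrt ℓ + 3) * (ℓ - 1) ^ (-(9 / 10) : ℝ))) atTop (𝓝 (|K| * 0)) := by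
    apply Tendsto.const_mul
    have h2 : Tendsto (fun y : ℝ => 5 * y ^ (-(2 / 5) : ℝ)) atTop (𝓝 (5 * 0)) :=
      (tendsto_rpow_neg_atTop (by norm_num)).const_mul 5
    rw [mul_zero] at h2
    have h3 : Tendsto (fun ℓ : ℝ => 5 * (ℓ - 1) ^ (-(2 / 5) : ℝ)) atTop (𝓝 0) :=
      h2.comp (tendsto_atTop_add_const_right atTop (-1) tendsto_id)
    refine squeeze_zero' ?_ ?_ h3
    · filter_upwards [eventually_ge_atTop (2 : ℝ)] with ℓ hℓ
      have : 0 ≤ ℓ - 1 := by linarith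
      positivity
    · filter_upwards [eventually_ge_atTop (2 : ℝ)] with ℓ hℓ
      have h0 : 1 ≤ ℓ - 1 := by linarith
      have h0' : 0 < ℓ - 1 := by linarith
      have h4 : Real.sqrt ℓ ≤ 2 * (ℓ - 1) ^ (1 / 2 : ℝ) := by
        rw [← Real.sqrt_eq_rpow]
        have : ℓ ≤ 4 * (ℓ - 1) := by linarith
        calc Real.sqrt ℓ ≤ Real.sqrt (4 * (ℓ - 1)) := Real.sqrt_le_sqrt this
          _ = 2 * Real.sqrt (ℓ - 1) := by
            rw [Real.sqrt_mul (by norm_num), show (4 : ℝ) = 2 ^ 2 by norm_num, Real.sqrt_sq (by norm_num)]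
      have h5 : 1 ≤ (ℓ - 1) ^ (1 / 2 : ℝ) := Real.one_le_rpow h0 (by norm_num)
      calc (Real.sqrt ℓ + 3) * (ℓ - 1) ^ (-(9 / 10) : ℝ) ≤ (5 * (ℓ - 1) ^ (1 / 2 : ℝ)) * (ℓ - 1) ^ (-(9 / 10) : ℝ) := by
            apply mul_le_mul_of_nonneg_right _ (by positivity)
            linarith
        _ = 5 * (ℓ - 1) ^ (-(2 / 5) : ℝ) := by
            rw [mul_assoc, ← Real.rpow_add h0']
            norm_num
  rw [mul_zero] at h1
  have h2 : ∀ᶠ ℓ : ℝ in atTop, |K| * ((Real.sqrt ℓ + 3) * (ℓ - 1) ^ (-(9 / 10) : ℝ)) ≤ 1 / 8 := h1.eventually (ge_mem_nhds (by norm_num))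
  have hlog := Real.tendsto_log_atTop
  have h3 : ∀ᶠ U : ℝ in atTop, Real.exp (-1) * U ≤ U - 3 * Real.log U := by
    have h4 : ∀ᶠ U : ℝ in atTop, 3 * Real.log U ≤ (1 - Real.exp (-1)) * U := by
      have h5 : (fun x : ℝ => Real.log x) =o[atTop] fun x => x := Real.isLittleO_log_id_atTop
      have hc : 0 < (1 - Real.exp (-1)) / 3 := by
        have : Real.exp (-1) < 1 := by rw [Real.exp_lt_one_iff]; norm_num
        linarith
      have h6 := h5.bound hc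
      filter_upwards [h6, eventually_ge_atTop (1 : ℝ)] with U hU hU1
      rw [Real.norm_of_nonneg (Real.log_nonneg hU1), Real.norm_of_nonneg (by linarith : (0:ℝ) ≤ U)] at hU
      linarith
    filter_upwards [h4] with U hU
    linarith
  filter_upwards [hlog.eventually h2, hlog.eventually (eventually_ge_atTop (2 : ℝ)), h3, eventually_gt_atTop (0 : ℝ)] with U a1 a2 a3 a4
  set ℓ := Real.log U with hℓ
  have hl4 : Real.log 4 ≤ 2 := by
    rw [show (4 : ℝ) = 2 ^ (2 : ℕ) by norm_num, Real.log_pow]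
    push_cast
    have := Real.log_two_lt_d9
    linarith
  have hl4' : 0 ≤ Real.log 4 := Real.log_nonneg (by norm_num)
  have e1 : Real.log (4 * U * Real.exp (Real.sqrt ℓ)) = ℓ + Real.sqrt ℓ + Real.log 4 := by
    rw [Real.log_mul (by positivity) (Real.exp_pos _).ne', Real.log_exp, Real.log_mul (by norm_num) a4.ne']
    ring
  have e2 : ℓ - 1 ≤ Real.log (U - 3 * ℓ) := by
    have : ℓ - 1 = Real.log (Real.exp (-1) * U) := by
      rw [Real.log_mul (Real.exp_pos _).ne' a4.ne', Real.log_exp]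
      ring
    rw [this]
    exact Real.log_le_log (by positivity) a3
  have h0 : 1 ≤ ℓ - 1 := by linarith
  have h0' : 0 < ℓ - 1 := by linarith
  have e3 : (ℓ + Real.sqrt ℓ + Real.log 4) ^ (1 / 10 : ℝ) - (ℓ - 1) ^ (1 / 10 : ℝ) ≤ 1 / 10 * ((Real.sqrt ℓ + 3) * (ℓ - 1) ^ (-(9 / 10) : ℝ)) := by
    have e4 : ℓ + Real.sqrt ℓ + Real.log 4 ≤ (ℓ - 1) * (1 + (Real.sqrt ℓ + 3) / (ℓ - 1)) := by
      have : (ℓ - 1) * (1 + (Real.sqrt ℓ + 3) / (ℓ - 1)) = ℓ + Real.sqrt ℓ + 2 := by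
        field_simp
        ring
      linarith
    have e4' : (ℓ + Real.sqrt ℓ + Real.log 4) ^ (1 / 10 : ℝ) ≤ ((ℓ - 1) * (1 + (Real.sqrt ℓ + 3) / (ℓ - 1))) ^ (1 / 10 : ℝ) :=
      Real.rpow_le_rpow (by positivity) e4 (by norm_num)
    have e5 : (1 + (Real.sqrt ℓ + 3) / (ℓ - 1)) ^ (1 / 10 : ℝ) ≤ 1 + (1 / 10) * ((Real.sqrt ℓ + 3) / (ℓ - 1)) := by
      exact rpow_one_add_le_one_add_mul_self (by have : 0 ≤ (Real.sqrt ℓ + 3) / (ℓ - 1) := by positivity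
                                                 linarith) (by norm_num) (by norm_num)
    have e6 : (ℓ - 1) ^ (1 / 10 : ℝ) * (ℓ - 1)⁻¹ = (ℓ - 1) ^ (-(9 / 10) : ℝ) := by
      rw [← Real.rpow_neg_one, ← Real.rpow_add h0']
      norm_num
    refine (sub_le_sub_right e4' _).trans ?_
    rw [Real.mul_rpow h0'.le (by positivity)]
    have e7 := mul_le_mul_of_nonneg_left e5 (Real.rpow_nonneg h0'.le (1 / 10 : ℝ))
    calc _ ≤ (ℓ - 1) ^ (1 / 10 : ℝ) * (1 + (1 / 10) * ((Real.sqrt ℓ + 3) / (ℓ - 1))) - (ℓ - 1) ^ (1 / 10 : ℝ) := by linarith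
      _ = 1 / 10 * ((Real.sqrt ℓ + 3) * ((ℓ - 1) ^ (1 / 10 : ℝ) * (ℓ - 1)⁻¹)) := by
        rw [div_eq_mul_inv]; ring
      _ = _ := by rw [e6]
  have e8 : (ℓ - 1) ^ (1 / 10 : ℝ) ≤ Real.log (U - 3 * ℓ) ^ (1 / 10 : ℝ) := Real.rpow_le_rpow h0'.le e2 (by norm_num)
  have e9 : 0 ≤ Real.log (4 * U * Real.exp (Real.sqrt ℓ)) ^ (1 / 10 : ℝ) - Real.log (U - 3 * ℓ) ^ (1 / 10 : ℝ) := by
    have : Real.log (U - 3 * ℓ) ≤ ℓ := Real.log_le_log (by nlinarith [Real.exp_pos (-1)]) (by linarith)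
    have h5 : Real.log (U - 3 * ℓ) ^ (1 / 10 : ℝ) ≤ Real.log (4 * U * Real.exp (Real.sqrt ℓ)) ^ (1 / 10 : ℝ) := by
      apply Real.rpow_le_rpow (by linarith) _ (by norm_num)
      rw [e1]
      linarith [Real.sqrt_nonneg ℓ]
    linarith
  calc 10 * K * (Real.log (4 * U * Real.exp (Real.sqrt ℓ)) ^ (1 / 10 : ℝ) - Real.log (U - 3 * ℓ) ^ (1 / 10 : ℝ))
      ≤ 10 * |K| * (Real.log (4 * U * Real.exp (Real.sqrt ℓ)) ^ (1 / 10 : ℝ) - Real.log (U - 3 * ℓ) ^ (1 / 10 : ℝ)) :=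
        mul_le_mul_of_nonneg_right (by linarith [le_abs_self K]) e9
    _ ≤ 10 * |K| * (1 / 10 * ((Real.sqrt ℓ + 3) * (ℓ - 1) ^ (-(9 / 10) : ℝ))) := by
        apply mul_le_mul_of_nonneg_left _ (by positivity)
        rw [e1] at *
        linarith
    _ = |K| * ((Real.sqrt ℓ + 3) * (ℓ - 1) ^ (-(9 / 10) : ℝ)) := by ring
    _ ≤ 1 / 8 := a1

end Pool.Agent.Helper50.CH
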